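import Mathlib
import Pool.Agent.Q103.EL.Heads

set_option autoImplicit false

/-!
# Heads of elements of a graph product over a triangle-free graph

For a fixed `g` the sets of the heads of `w` and of `w g` have a common element for all but
finitely many `w`.
-/

namespace Pool.Agent.Q103.BO

open Pool.Agent.Y33.GP Pool.Agent.Q103.EL

variable {V : Type} {Γ : SimpleGraph V} {H : V → Type} [∀ v, Group (H v)]

/-- The decomposition of the elements of the star subgroup. -/
theorem star_decomp (v : V) (y : GProd Γ H) :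
    kap Γ H (st Γ v) y = inj Γ H v (headv Γ H v (kap Γ H (st Γ v) y)) * kap Γ H (lk Γ v) y := by
  refine ind_left Γ H (P := fun y => kap Γ H (st Γ v) y =
    inj Γ H v (headv Γ H v (kap Γ H (st Γ v) y)) * kap Γ H (lk Γ v) y) y ?_ ?_
  · rw [map_one, map_one, headv_one, map_one, one_mul]
  · intro w a y ih
    rw [map_mul, map_mul]
    by_cases hwv : w = v
    · subst hwv
      have h1 : w ∈ st Γ w := Or.inl rfl
      have h2 : w ∉ lk Γ w := fun h => Γ.loopless.irrefl w h
      rw [kap_mem Γ H h1, kap_not Γ H h2, one_mul, headv_same, map_mul, mul_assoc, ← ih]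
    · by_cases hadj : Γ.Adj v w
      · have h1 : w ∈ st Γ v := Or.inr hadj
        have h2 : w ∈ lk Γ v := hadj
        rw [kap_mem Γ H h1, kap_mem Γ H h2, headv_adj Γ H v hadj, ← mul_assoc,
          ← inj_comm Γ H hadj.symm, mul_assoc, ← ih]
      · have h1 : w ∉ st Γ v := by
          rintro (h | h)
          · exact hwv h
          · exact hadj h
        have h2 : w ∉ lk Γ v := hadj
        rw [kap_not Γ H h1, kap_not Γ H h2, one_mul, one_mul]
        exact ih

theorem headv_lk (v : V) {l : GProd Γ H} (hl : kap Γ H (lk Γ v) l = l) : headv Γ H v l = 1 := by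
  have h1 : v ∉ lk Γ v := fun h => Γ.loopless.irrefl v h
  have h2 := headv_sub (Γ := Γ) (H := H) h1 (kap_mem_sub (lk Γ v) l) 1
  rwa [one_mul, hl, headv_one] at h2

/-- The heads of an element of a special subgroup. -/
theorem headv_kap {Λ : Set V} {u : V} {l : GProd Γ H} (hl : kap Γ H Λ l = l)
    (hu : headv Γ H u l ≠ 1) : u ∈ Λ := by
  by_contra h1
  have h2 := headv_sub (Γ := Γ) (H := H) h1 (kap_mem_sub Λ l) 1
  rw [one_mul, hl, headv_one] at h2
  exact hu h2

theorem lk_comm (v : V) (l : GProd Γ H) (b : H v) :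
    kap Γ H (lk Γ v) l * inj Γ H v b = inj Γ H v b * kap Γ H (lk Γ v) l := by
  refine ind_left Γ H (P := fun l => kap Γ H (lk Γ v) l * inj Γ H v b =
    inj Γ H v b * kap Γ H (lk Γ v) l) l ?_ ?_
  · rw [map_one, one_mul, mul_one]
  · intro w a y ih
    rw [map_mul]
    by_cases hadj : Γ.Adj v w
    · rw [kap_mem Γ H (Λ := lk Γ v) hadj, mul_assoc, ih, ← mul_assoc, ← mul_assoc,
        inj_comm Γ H hadj.symm]
    · rw [kap_not Γ H (Λ := lk Γ v) hadj, one_mul, ih]

/-- How a head disappears. -/
theorem head_cancel {v t : V} {y : GProd Γ H} {b : H t} (h1 : headv Γ H v y ≠ 1)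
    (h2 : headv Γ H v (y * inj Γ H t b) = 1) :
    t = v ∧ kap Γ H (lk Γ v) (y * inj Γ H t b) = y * inj Γ H t b := by
  by_cases htv : t = v
  · subst htv
    refine ⟨rfl, ?_⟩
    by_cases hst : kap Γ H (st Γ t) y = y
    · have h3 := star_decomp t y
      rw [hst] at h3
      set l := kap Γ H (lk Γ t) y with hl
      have hll : kap Γ H (lk Γ t) l = l := kap_kap Γ H (lk Γ t) y
      have h4 : y * inj Γ H t b = inj Γ H t (headv Γ H t y * b) * l := by
        conv_lhs => rw [h3]
        rw [mul_assoc, hl, lk_comm, ← mul_assoc, ← map_mul]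
      have h5 : headv Γ H t y * b = 1 := by
        rw [h4, headv_same, headv_lk t hll, mul_one] at h2
        exact h2
      rw [h4, h5, map_one, one_mul, hll]
    · rw [headv_not Γ H t hst] at h2
      exact absurd h2 h1
  · rw [headv_ne Γ H v htv] at h2
    exact absurd h2 h1

/-! ### Nontrivial elements have heads -/

/-- Products of at most `n` syllables. -/
inductive Len (Γ : SimpleGraph V) (H : V → Type) [∀ v, Group (H v)] : ℕ → GProd Γ H → Prop
  | one (n : ℕ) : Len Γ H n 1
  | mul {n : ℕ} {y : GProd Γ H} (v : V) (b : H v) : Len Γ H n y → Len Γ H (n + 1) (y * inj Γ H v b)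

theorem Len.mono {n m : ℕ} {y : GProd Γ H} (h : Len Γ H n y) (hnm : n ≤ m) : Len Γ H m y := by
  induction h generalizing m with
  | one n => exact Len.one m
  | mul v b _ ih =>
    obtain ⟨m, rfl⟩ : ∃ k, m = k + 1 := ⟨m - 1, by omega⟩
    exact Len.mul v b (ih (by omega))

theorem Len.exists (y : GProd Γ H) : ∃ n, Len Γ H n y := by
  refine ind_right (P := fun y => ∃ n, Len Γ H n y) y ⟨0, Len.one 0⟩ ?_
  rintro v a x ⟨n, hn⟩
  exact ⟨n + 1, Len.mul v a hn⟩

theorem Len.remove {n : ℕ} {y : GProd Γ H} (h : Len Γ H n y) :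
    ∀ v, headv Γ H v y ≠ 1 → 1 ≤ n ∧ Len Γ H (n - 1) (inj Γ H v (headv Γ H v y)⁻¹ * y) := by
  induction h with
  | one n => intro v hv; exact absurd (headv_one Γ H v) hv
  | @mul n y t b hy ih =>
    intro v hv
    refine ⟨by omega, ?_⟩
    rw [Nat.add_sub_cancel]
    by_cases hc : headv Γ H v (y * inj Γ H t b) = headv Γ H v y
    · rw [hc] at hv ⊢
      obtain ⟨h1, h2⟩ := ih v hv
      have := Len.mul t b h2
      rw [Nat.sub_add_cancel h1] at this
      rwa [mul_assoc] at this
    · have htv : t = v := by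
        by_contra hne
        exact hc (headv_ne Γ H v hne y b)
      subst htv
      have hst : kap Γ H (st Γ t) y = y := by
        by_contra hne
        exact hc (headv_not Γ H t hne b)
      have h3 := star_decomp t y
      rw [hst] at h3
      set l := kap Γ H (lk Γ t) y with hl
      have hll : kap Γ H (lk Γ t) l = l := kap_kap Γ H (lk Γ t) y
      have h4 : y * inj Γ H t b = inj Γ H t (headv Γ H t y * b) * l := by
        conv_lhs => rw [h3]
        rw [mul_assoc, hl, lk_comm, ← mul_assoc, ← map_mul]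
      have h5 : headv Γ H t (y * inj Γ H t b) = headv Γ H t y * b := by
        rw [h4, headv_same, headv_lk t hll, mul_one]
      have h6 : inj Γ H t (headv Γ H t (y * inj Γ H t b))⁻¹ * (y * inj Γ H t b) = l := by
        rw [h5, h4, map_inv, inv_mul_cancel_left]
      rw [h6]
      by_cases h7 : headv Γ H t y = 1
      · rw [h7, map_one, one_mul] at h3
        rw [← h3]; exact hy
      · obtain ⟨h8, h9⟩ := ih t h7
        have h10 : inj Γ H t (headv Γ H t y)⁻¹ * y = l := by
          conv_lhs => rw [h3]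
          have : headv Γ H t (inj Γ H t (headv Γ H t y) * l) = headv Γ H t y := by rw [← h3]
          rw [this, map_inv, inv_mul_cancel_left]
        rw [h10] at h9
        exact h9.mono (by omega)

theorem Len.left {n : ℕ} {y : GProd Γ H} (h : Len Γ H n y) :
    y = 1 ∨ ∃ (v : V) (a : H v) (y' : GProd Γ H), y = inj Γ H v a * y' ∧ 1 ≤ n ∧
      Len Γ H (n - 1) y' := by
  induction h with
  | one n => exact Or.inl rfl
  | @mul n y t b hy ih =>
    right
    rcases ih with rfl | ⟨v, a, y', rfl, h1, h2⟩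
    · exact ⟨t, b, 1, by rw [one_mul, mul_one], by omega, Len.one _⟩
    · refine ⟨v, a, y' * inj Γ H t b, by rw [mul_assoc], by omega, ?_⟩
      have := Len.mul t b h2
      rw [Nat.sub_add_cancel h1] at this
      exact this

/-- A nontrivial element has a nontrivial head. -/
theorem exists_head {y : GProd Γ H} (hy : y ≠ 1) : ∃ v, headv Γ H v y ≠ 1 := by
  classical
  by_contra hcon
  push Not at hcon
  have hex := Len.exists y
  let n := Nat.find hex
  have hn : Len Γ H n y := Nat.find_spec hex
  have hmin : ∀ m < n, ¬ Len Γ H m y := fun m hm => Nat.find_min hex hm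
  rcases hn.left with h | ⟨v, a, y', rfl, h1, h2⟩
  · exact hy h
  · have h3 := hcon v
    rw [headv_same] at h3
    have h4 : headv Γ H v y' = a⁻¹ := (eq_inv_of_mul_eq_one_right h3)
    by_cases ha : a = 1
    · rw [ha, map_one, one_mul] at hmin
      exact hmin (n - 1) (by omega) h2
    · have h5 : headv Γ H v y' ≠ 1 := by rw [h4]; exact inv_ne_one.2 ha
      obtain ⟨h6, h7⟩ := h2.remove v h5
      rw [h4, inv_inv] at h7
      exact hmin (n - 1 - 1) (by omega) h7

/-! ### Common heads of `w` and `w g` -/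

/-- the graph has no triangle, in the form used below -/
def TF (Γ : SimpleGraph V) : Prop := ∀ u v w, Γ.Adj u v → Γ.Adj u w → ¬ Γ.Adj v w

theorem kap_lk_lk (hΓ : TF Γ) {u v : V} (h : Γ.Adj v u) (l : GProd Γ H) :
    kap Γ H (lk Γ v) (kap Γ H (lk Γ u) l) = 1 := by
  refine ind_left Γ H (P := fun l => kap Γ H (lk Γ v) (kap Γ H (lk Γ u) l) = 1) l ?_ ?_
  · rw [map_one, map_one]
  · intro w a y ih
    rw [map_mul, map_mul, ih, mul_one]
    by_cases h1 : Γ.Adj u w
    · rw [kap_mem Γ H (Λ := lk Γ u) h1]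
      exact kap_not Γ H (Λ := lk Γ v) (fun h2 => hΓ v u w h h2 h1) a
    · rw [kap_not Γ H (Λ := lk Γ u) h1, map_one]

theorem finite_lk (hΓ : TF Γ) (v : V) (c : GProd Γ H) :
    {l : GProd Γ H | kap Γ H (lk Γ v) l = l ∧ ∃ u, Γ.Adj v u ∧ headv Γ H u l ≠ 1 ∧
      headv Γ H u (l * c) = 1}.Finite := by
  refine ind_right (P := fun c => {l : GProd Γ H | kap Γ H (lk Γ v) l = l ∧
    ∃ u, Γ.Adj v u ∧ headv Γ H u l ≠ 1 ∧ headv Γ H u (l * c) = 1}.Finite) c ?_ ?_
  · convert Set.finite_empty (α := GProd Γ H)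
    ext l
    simp only [Set.mem_empty_iff_false, iff_false, mul_one]
    rintro ⟨-, u, -, h1, h2⟩
    exact h1 h2
  · intro t b c ih
    refine (ih.union (Set.finite_singleton
      (inj Γ H t b⁻¹ * (kap Γ H (lk Γ v) c)⁻¹))).subset ?_
    rintro l ⟨hl, u, huv, h1, h2⟩
    by_cases h3 : headv Γ H u (l * c) = 1
    · exact Or.inl ⟨hl, u, huv, h1, h3⟩
    · right
      rw [← mul_assoc] at h2
      obtain ⟨htu, h4⟩ := head_cancel h3 h2
      subst htu
      have h5 : l * c * inj Γ H t b = kap Γ H (lk Γ t) (l * c * inj Γ H t b) := h4.symm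
      have h6 := congrArg (kap Γ H (lk Γ v)) h5
      rw [kap_lk_lk hΓ huv, map_mul, map_mul, hl, kap_mem Γ H (Λ := lk Γ v) huv] at h6
      show l = _
      rw [map_inv, ← mul_inv_rev]
      rw [mul_assoc] at h6
      exact eq_inv_of_mul_eq_one_left h6

/-- For all but finitely many `w` the elements `w` and `w g` have a common head. -/
theorem finite_common (hΓ : TF Γ) (g : GProd Γ H) :
    {w : GProd Γ H | ∀ u, headv Γ H u w ≠ 1 → headv Γ H u (w * g) = 1}.Finite := by
  refine ind_right (P := fun g => {w : GProd Γ H | ∀ u, headv Γ H u w ≠ 1 →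
    headv Γ H u (w * g) = 1}.Finite) g ?_ ?_
  · refine (Set.finite_singleton (1 : GProd Γ H)).subset ?_
    intro w hw
    by_contra h1
    obtain ⟨v, hv⟩ := exists_head h1
    have := hw v hv
    rw [mul_one] at this
    exact hv this
  · intro t b g ih
    have hfin := (finite_lk (H := H) hΓ t (g * inj Γ H t b)⁻¹).union
      (Set.finite_singleton (1 : GProd Γ H))
    refine (ih.union (hfin.image fun l => l * (g * inj Γ H t b)⁻¹)).subset ?_
    intro w hw
    by_cases h1 : ∀ u, headv Γ H u w ≠ 1 → headv Γ H u (w * g) = 1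
    · exact Or.inl h1
    · right
      push Not at h1
      obtain ⟨v, hv1, hv2⟩ := h1
      have hv3 := hw v hv1
      rw [← mul_assoc] at hv3
      obtain ⟨htv, h4⟩ := head_cancel hv2 hv3
      subst htv
      refine ⟨w * (g * inj Γ H t b), ?_, by group⟩
      by_cases h5 : w * (g * inj Γ H t b) = 1
      · exact Or.inr h5
      · left
        obtain ⟨u, hu⟩ := exists_head h5
        rw [mul_assoc] at h4
        refine ⟨h4, u, headv_kap h4 hu, hu, ?_⟩
        rw [mul_inv_cancel_right]
        by_contra h6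
        exact hu (hw u h6)

end Pool.Agent.Q103.BO
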